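import Pool.Agent.H61.CM4.TargetsB

/-!
# The integrand of the kernel
-/

namespace Pool.Agent.H50.CM4B

open MeasureTheory Set Filter NumberField NumberField.InfinitePlace NumberField.Units
  NumberField.Units.dirichletUnitTheorem Pool.Agent.H65.CM4 Pool.Agent.H25.HK Pool.Agent.H61.CM4
open scoped Real

theorem pf_KIN (hGGB : T_GGB) : T_KIN := by
  intro n R
  obtain ⟨C, j, hC, hb⟩ := hGGB.2 R
  refine ⟨C ^ n * Real.exp ((|R| + 3) ^ 2), j * n, by positivity, ?_⟩
  intro c τ s r hc hcR hs hr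
  have hre : ((c : ℂ) + τ * Complex.I).re = c := by simp
  have him : ((c : ℂ) + τ * Complex.I).im = τ := by simp
  have hr0 : r ≠ 0 := Complex.slitPlane_ne_zero hr
  -- the Gamma factor
  have h1 : ‖gG ((c : ℂ) + τ * Complex.I) ^ n‖ ≤
      C ^ n * (1 + |τ|) ^ (j * n) * Real.exp (-(π * n * |τ| / 2)) := by
    have h2 := hb ((c : ℂ) + τ * Complex.I) (by rw [hre]; exact hc) (by rw [hre]; exact hcR)
    rw [him] at h2
    rw [norm_pow]
    calc ‖gG ((c : ℂ) + τ * Complex.I)‖ ^ n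
        ≤ (C * (1 + |τ|) ^ j * Real.exp (-(π * |τ| / 2))) ^ n :=
          pow_le_pow_left₀ (norm_nonneg _) h2 n
      _ = C ^ n * (1 + |τ|) ^ (j * n) * Real.exp (-(π * n * |τ| / 2)) := by
          rw [mul_pow, mul_pow, ← pow_mul, ← Real.exp_nat_mul]
          ring_nf
  -- the Gaussian factor
  have h3 : ‖Complex.exp (((c : ℂ) + τ * Complex.I - s) ^ 2)‖ ≤
      Real.exp ((|R| + 3) ^ 2) * Real.exp (-(τ - s.im) ^ 2) := by
    rw [Complex.norm_exp, ← Real.exp_add]
    apply Real.exp_le_exp.mpr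
    have e1 : (((c : ℂ) + τ * Complex.I - s) ^ 2).re = (c - s.re) ^ 2 - (τ - s.im) ^ 2 := by
      rw [sq, Complex.mul_re]
      simp only [Complex.sub_re, Complex.sub_im, hre, him]
      ring
    rw [e1]
    have h4 : |c - s.re| ≤ |R| + 3 := by
      have h5 : |c| ≤ |R| := by
        rw [abs_of_pos hc]
        exact hcR.trans (le_abs_self R)
      calc |c - s.re| ≤ |c| + |s.re| := abs_sub _ _
        _ ≤ |R| + 3 := add_le_add h5 hs
    have h6 : (c - s.re) ^ 2 ≤ (|R| + 3) ^ 2 := by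
      rw [← sq_abs (c - s.re)]
      exact pow_le_pow_left₀ (abs_nonneg _) h4 2
    linarith
  -- the power
  have h7 : ‖r ^ (-((c : ℂ) + τ * Complex.I))‖ ≤ ‖r‖ ^ (-c) * Real.exp (|r.arg| * |τ|) := by
    rw [Complex.norm_cpow_of_ne_zero hr0, Complex.neg_re, Complex.neg_im, hre, him, div_eq_mul_inv,
      ← Real.exp_neg]
    refine mul_le_mul_of_nonneg_left ?_ (Real.rpow_nonneg (norm_nonneg _) _)
    apply Real.exp_le_exp.mpr
    calc -(r.arg * -τ) = r.arg * τ := by ring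
      _ ≤ |r.arg * τ| := le_abs_self _
      _ = |r.arg| * |τ| := abs_mul _ _
  rw [norm_mul, norm_mul]
  calc ‖gG ((c : ℂ) + τ * Complex.I) ^ n‖ * ‖Complex.exp (((c : ℂ) + τ * Complex.I - s) ^ 2)‖ *
        ‖r ^ (-((c : ℂ) + τ * Complex.I))‖
      ≤ (C ^ n * (1 + |τ|) ^ (j * n) * Real.exp (-(π * n * |τ| / 2))) *
          (Real.exp ((|R| + 3) ^ 2) * Real.exp (-(τ - s.im) ^ 2)) *
          (‖r‖ ^ (-c) * Real.exp (|r.arg| * |τ|)) := by
        refine mul_le_mul (mul_le_mul h1 h3 (norm_nonneg _) (by positivity)) h7 (norm_nonneg _)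
          (by positivity)
    _ = _ := by ring

end Pool.Agent.H50.CM4B
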